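import Pool.Agent.helper64.D2.SpecF

/-!
Project dc: (MP_5823cb_al), module MKL: construction of lifts.
-/

set_option autoImplicit false

open Filter Topology
open scoped commutatorElement

namespace Pool.Agent.helper64.D2

theorem MKL_nat {F : ℝ → ℝ} (h : ∀ x, F (x + 1) = F x + 1) (n : ℕ) (x : ℝ) :
    F (x + n) = F x + n := by
  induction n with
  | zero => simp
  | succ n ih =>
    have : x + ((n + 1 : ℕ) : ℝ) = (x + n) + 1 := by push_cast; ring
    rw [this, h, ih]
    push_cast
    ring

theorem MKL_sub {F : ℝ → ℝ} (h : ∀ x, F (x + 1) = F x + 1) (n : ℕ) (x : ℝ) :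
    F (x - n) = F x - n := by
  have := MKL_nat h n (x - n)
  rw [sub_add_cancel] at this
  linarith

theorem MKL_surj {F : ℝ → ℝ} (hc : Continuous F) (h : ∀ x, F (x + 1) = F x + 1) :
    Function.Surjective F := by
  intro y
  obtain ⟨n, hn⟩ := exists_nat_ge |y - F 0|
  have h1 : F (-(n : ℝ)) ≤ y := by
    have := MKL_sub h n 0
    rw [zero_sub] at this
    rw [this]
    have := (abs_le.mp hn).1
    linarith
  have h2 : y ≤ F (n : ℝ) := by
    have := MKL_nat h n 0
    rw [zero_add] at this
    rw [this]
    have := (abs_le.mp hn).2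
    linarith
  have hle : (-(n : ℝ)) ≤ n := by
    have : (0 : ℝ) ≤ n := Nat.cast_nonneg n
    linarith
  have := intermediate_value_Icc hle hc.continuousOn
  obtain ⟨x, _, hx⟩ := this ⟨h1, h2⟩
  exact ⟨x, hx⟩

theorem MKL : MKL_stmt := by
  intro F hF h hpos
  have hc : Continuous F := hF.continuous
  have hmono : StrictMono F := strictMono_of_deriv_pos hpos
  have hsurj := MKL_surj hc h
  let e : ℝ ≃o ℝ := hmono.orderIsoOfSurjective F hsurj
  have he : ∀ x, e x = F x := fun x => rfl
  have hFG : ∀ y, F (e.symm y) = y := fun y => by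
    rw [← he]; exact e.apply_symm_apply y
  have hGF : ∀ x, e.symm (F x) = x := fun x => by
    rw [← he]; exact e.symm_apply_apply x
  have hGc : Continuous (fun y => e.symm y) := e.symm.continuous
  let f1 : CircleDeg1Lift := ⟨⟨F, hmono.monotone⟩, h⟩
  let f2 : CircleDeg1Lift := ⟨⟨fun y => e.symm y, e.symm.monotone⟩, by
    intro y
    show e.symm (y + 1) = e.symm y + 1
    apply hmono.injective
    rw [hFG, h, hFG]⟩
  let g : CircleDeg1Liftˣ := ⟨f1, f2, by
    ext x
    show F (e.symm x) = x
    exact hFG x, by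
    ext x
    show e.symm (F x) = x
    exact hGF x⟩
  have hG : ContDiff ℝ 2 (fun y => e.symm y) := by
    rw [contDiff_iff_contDiffAt]
    intro y
    have hder : ∀ z : ℝ, HasDerivAt F (deriv F z) z := fun z =>
      ((hF.differentiable (by norm_num)) z).hasDerivAt
    let E : Homeomorph ℝ ℝ := e.toHomeomorph
    have hEs : ∀ z, E.symm z = e.symm z := fun z => rfl
    have := (E.toOpenPartialHomeomorph).contDiffAt_symm_deriv (n := 2) (f₀' := deriv F (e.symm y))
      (a := y) (ne_of_gt (hpos _)) (by simp) (by
        have := hder (e.symm y)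
        exact this) (by
        have := hF.contDiffAt (x := e.symm y)
        exact this)
    exact this
  refine ⟨g, ⟨hF, hG⟩, fun x => rfl⟩

end Pool.Agent.helper64.D2
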